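import Mathlib

/-!
The almost everywhere derivative of a locally Lipschitz map is its weak derivative.
-/

set_option autoImplicit false

namespace Pool.Agent.Lib_MP_53ae57_an

open MeasureTheory Metric Set Filter Topology

section Gen

variable {E F : Type*} [NormedAddCommGroup E] [InnerProductSpace ℝ E] [FiniteDimensional ℝ E]
  [MeasurableSpace E] [BorelSpace E]
  [NormedAddCommGroup F] [NormedSpace ℝ F] [FiniteDimensional ℝ F]

lemma aesm_fderiv (f : E → F) :
    AEStronglyMeasurable (fderiv ℝ f) (volume : Measure E) :=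
  (measurable_fderiv ℝ f).aestronglyMeasurable

/-- The derivative of a locally Lipschitz map is locally bounded. -/
lemma local_bound {f : E → F} (hf : LocallyLipschitz f) (x : E) :
    ∃ C : ℝ, ∃ r > 0, ∀ y ∈ ball x r, ‖fderiv ℝ f y‖ ≤ C := by
  obtain ⟨K, t, ht, hK⟩ := hf x
  obtain ⟨r, hr, hrt⟩ := Metric.mem_nhds_iff.1 ht
  refine ⟨K, r, hr, fun y hy => ?_⟩
  exact norm_fderiv_le_of_lipschitzOn ℝ (isOpen_ball.mem_nhds hy) (hK.mono hrt)

lemma locInt_of_bdd {G : Type*} [NormedAddCommGroup G] {u : E → G}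
    (hu : AEStronglyMeasurable u (volume : Measure E))
    (hb : ∀ x : E, ∃ C : ℝ, ∃ r > 0, ∀ y ∈ ball x r, ‖u y‖ ≤ C) :
    LocallyIntegrable u (volume : Measure E) := by
  intro x
  obtain ⟨C, r, hr, h⟩ := hb x
  refine ⟨ball x r, ball_mem_nhds x hr, ?_⟩
  refine Measure.integrableOn_of_bounded (M := C) measure_ball_lt_top.ne hu ?_
  exact (ae_restrict_iff' measurableSet_ball).2 (Eventually.of_forall fun y hy => h y hy)

lemma locInt_pow {f : E → F} (hf : LocallyLipschitz f) (n : ℕ) :
    LocallyIntegrable (fun x => ‖fderiv ℝ f x‖ ^ n) (volume : Measure E) := by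
  refine locInt_of_bdd ((aesm_fderiv f).norm.pow n) ?_
  intro x
  obtain ⟨C, r, hr, h⟩ := local_bound hf x
  refine ⟨C ^ n, r, hr, fun y hy => ?_⟩
  rw [norm_pow, norm_norm]
  exact pow_le_pow_left₀ (norm_nonneg _) (h y hy) n

lemma locInt_apply {f : E → F} (hf : LocallyLipschitz f) (v : E) :
    LocallyIntegrable (fun x => fderiv ℝ f x v) (volume : Measure E) := by
  refine locInt_of_bdd ?_ ?_
  · exact (ContinuousLinearMap.apply ℝ F v).continuous.comp_aestronglyMeasurable (aesm_fderiv f)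
  intro x
  obtain ⟨C, r, hr, h⟩ := local_bound hf x
  refine ⟨C * ‖v‖, r, hr, fun y hy => ?_⟩
  exact (ContinuousLinearMap.le_opNorm _ _).trans
    (mul_le_mul_of_nonneg_right (h y hy) (norm_nonneg _))

/-- Integration by parts, scalar case. -/
lemma scalar_ibp {u : E → ℝ} (hu : LocallyLipschitz u) {φ : E → ℝ} (hφ : ContDiff ℝ 1 φ)
    (hc : HasCompactSupport φ) (v : E) :
    ∫ x, fderiv ℝ φ x v * u x = - ∫ x, φ x * fderiv ℝ u x v := by
  obtain ⟨ρ, hρ⟩ : ∃ ρ : ℝ, tsupport φ ⊆ ball 0 ρ := by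
    obtain ⟨ρ, hρ⟩ := hc.isCompact.isBounded.subset_ball (0 : E)
    exact ⟨ρ, hρ⟩
  obtain ⟨C, hC⟩ := (hu.locallyLipschitzOn (s := closedBall (0 : E) ρ)).exists_lipschitzOnWith_of_compact
    (isCompact_closedBall 0 ρ)
  obtain ⟨w, hw, hwu⟩ := hC.extend_real
  obtain ⟨D, hD⟩ := hφ.lipschitzWith_of_hasCompactSupport hc (by norm_num)
  have key := hw.integral_lineDeriv_mul_eq (μ := (volume : Measure E)) hD hc v
  have hφd : ∀ x, DifferentiableAt ℝ φ x := fun x => (hφ.differentiable (by norm_num)).differentiableAt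
  have h1 : ∀ x, lineDeriv ℝ φ x (-v) * w x = -(fderiv ℝ φ x v * u x) := by
    intro x
    rw [(hφd x).lineDeriv_eq_fderiv, map_neg]
    by_cases hx : x ∈ tsupport φ
    · rw [hwu (ball_subset_closedBall (hρ hx))]
      ring
    · have : fderiv ℝ φ x = 0 := by
        by_contra hne
        exact hx (support_fderiv_subset ℝ hne)
      rw [this]
      simp
  have h2 : ∀ᵐ x ∂(volume : Measure E), lineDeriv ℝ w x v * φ x = φ x * fderiv ℝ u x v := by
    filter_upwards [hw.ae_differentiableAt (μ := (volume : Measure E))] with x hx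
    by_cases hxs : x ∈ tsupport φ
    · have hev : w =ᶠ[𝓝 x] u := by
        filter_upwards [isOpen_ball.mem_nhds (hρ hxs)] with y hy
        exact (hwu (ball_subset_closedBall hy)).symm
      rw [hx.lineDeriv_eq_fderiv, hev.fderiv_eq, mul_comm]
    · have : φ x = 0 := image_eq_zero_of_notMem_tsupport hxs
      rw [this]
      simp
  rw [integral_congr_ae h2] at key
  rw [key]
  simp_rw [h1]
  rw [integral_neg, neg_neg]

end Gen

/-- Integration by parts for locally Lipschitz maps into a Euclidean space. -/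
lemma weak_deriv {m n : ℕ} {f : EuclideanSpace ℝ (Fin m) → EuclideanSpace ℝ (Fin n)}
    (hf : LocallyLipschitz f) (hfc : Continuous f)
    {φ : EuclideanSpace ℝ (Fin m) → ℝ} (hφ : ContDiff ℝ 1 φ)
    (hc : HasCompactSupport φ) (v : EuclideanSpace ℝ (Fin m)) :
    ∫ x, (fderiv ℝ φ x v) • f x = - ∫ x, φ x • fderiv ℝ f x v := by
  ext i
  have hcont : Continuous (fun x => fderiv ℝ φ x v) :=
    (hφ.continuous_fderiv (by norm_num)).clm_apply continuous_const
  have hcs : HasCompactSupport (fun x => fderiv ℝ φ x v) := hc.fderiv_apply (𝕜 := ℝ) v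
  have hi1 : Integrable (fun x => (fderiv ℝ φ x v) • f x)
      (volume : Measure (EuclideanSpace ℝ (Fin m))) :=
    (hcont.smul hfc).integrable_of_hasCompactSupport (HasCompactSupport.smul_right hcs)
  have hi2 : Integrable (fun x => φ x • fderiv ℝ f x v)
      (volume : Measure (EuclideanSpace ℝ (Fin m))) :=
    (locInt_apply hf v).integrable_smul_left_of_hasCompactSupport hφ.continuous hc
  let L : EuclideanSpace ℝ (Fin n) →L[ℝ] ℝ := EuclideanSpace.proj i
  have hL : ∀ y, L y = y i := fun y => rfl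
  rw [PiLp.neg_apply, ← hL, ← hL, ← L.integral_comp_comm hi1, ← L.integral_comp_comm hi2]
  simp only [map_smul, smul_eq_mul]
  have hu : LocallyLipschitz (fun x => L (f x)) := L.lipschitz.locallyLipschitz.comp hf
  rw [scalar_ibp hu hφ hc v]
  congr 1
  apply integral_congr_ae
  have hd : ∀ᵐ x ∂(volume : Measure (EuclideanSpace ℝ (Fin m))), DifferentiableAt ℝ f x := by
    have h1 : ∀ k : ℕ, ∀ᵐ x ∂(volume : Measure (EuclideanSpace ℝ (Fin m))),
        x ∈ ball (0 : EuclideanSpace ℝ (Fin m)) k → DifferentiableAt ℝ f x := by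
      intro k
      obtain ⟨C, hC⟩ := (hf.locallyLipschitzOn
        (s := closedBall (0 : EuclideanSpace ℝ (Fin m)) k)).exists_lipschitzOnWith_of_compact
        (isCompact_closedBall 0 _)
      filter_upwards [(hC.mono ball_subset_closedBall).ae_differentiableWithinAt_of_mem
        (μ := (volume : Measure (EuclideanSpace ℝ (Fin m))))] with x hx hxk
      exact (hx hxk).differentiableAt (isOpen_ball.mem_nhds hxk)
    filter_upwards [ae_all_iff.2 h1] with x hx
    obtain ⟨k, hk⟩ := exists_nat_gt ‖x‖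
    exact hx k (by simpa using hk)
  filter_upwards [hd] with x hx
  have h3 : HasFDerivAt (fun x => L (f x)) (L ∘L fderiv ℝ f x) x :=
    L.hasFDerivAt.comp x hx.hasFDerivAt
  rw [h3.fderiv]
  rfl

end Pool.Agent.Lib_MP_53ae57_an
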