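import Pool.Agent.Lib_MP_53ae57_an.Sine
import Pool.Agent.Lib_MP_53ae57_an.WeakDeriv

/-!
The quasiregular map with a circle of asymptotic values.
-/

set_option autoImplicit false

namespace Pool.Agent.Lib_MP_53ae57_an

open MeasureTheory Metric Set Filter Topology

/-- smoothed norm -/
noncomputable def rho (x : E3) : ℝ := √(10 ^ 12 + ‖x‖ ^ 2)

/-- its square root -/
noncomputable def sig (x : E3) : ℝ := √(rho x)

lemma rho_sq (x : E3) : rho x ^ 2 = 10 ^ 12 + ‖x‖ ^ 2 := Real.sq_sqrt (by positivity)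

lemma rho_ge (x : E3) : 10 ^ 6 ≤ rho x := by
  rw [rho]
  apply Real.le_sqrt_of_sq_le
  nlinarith [sq_nonneg ‖x‖]

lemma rho_pos (x : E3) : 0 < rho x := lt_of_lt_of_le (by norm_num) (rho_ge x)

lemma norm_le_rho (x : E3) : ‖x‖ ≤ rho x := by
  rw [rho]
  apply Real.le_sqrt_of_sq_le
  linarith

lemma sig_sq (x : E3) : sig x ^ 2 = rho x := Real.sq_sqrt (rho_pos x).le

lemma sig_ge (x : E3) : 1000 ≤ sig x := by
  rw [sig]
  apply Real.le_sqrt_of_sq_le
  have := rho_ge x
  linarith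

lemma sig_pos (x : E3) : 0 < sig x := lt_of_lt_of_le (by norm_num) (sig_ge x)

lemma rho_deriv (x : E3) : HasFDerivAt rho ((1 / rho x) • innerSL ℝ x) x := by
  have h1 : HasFDerivAt (fun y : E3 => (10 : ℝ) ^ 12 + ‖y‖ ^ 2) (2 • innerSL ℝ x) x :=
    ((hasStrictFDerivAt_norm_sq x).hasFDerivAt).const_add _
  have h2 := h1.sqrt (by positivity)
  convert! h2 using 1
  ext v
  have hr := (rho_pos x).ne'
  simp only [smul_apply, smul_eq_mul, nsmul_eq_mul, Nat.cast_ofNat]
  rw [rho] at hr ⊢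
  field_simp

lemma sig_deriv (x : E3) : HasFDerivAt sig ((1 / (2 * sig x * rho x)) • innerSL ℝ x) x := by
  have h2 := (rho_deriv x).sqrt (rho_pos x).ne'
  convert! h2 using 1
  ext v
  have hr := (rho_pos x).ne'
  have hs := (sig_pos x).ne'
  simp only [smul_apply, smul_eq_mul]
  rw [sig] at hs ⊢
  field_simp

/-- coefficient of the slowly varying part: `1, 1, 0` -/
def kap : Fin 3 → ℝ := ![1, 1, 0]

lemma kap_abs (i : Fin 3) : |kap i| ≤ 1 := by
  fin_cases i <;> simp [kap]

/-- components of the map -/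
noncomputable def comp (i : Fin 3) (x : E3) : ℝ :=
  kap i * (x i / rho x) + (lam x * P x i) / sig x

lemma comp_deriv (i : Fin 3) {x : E3} {S' : E3 →L[ℝ] ℝ}
    (hS : HasFDerivAt (fun y => lam y * P y i) S' x) :
    HasFDerivAt (comp i) (kap i • ((1 / rho x) • pr i - (x i / rho x ^ 3) • innerSL ℝ x)
      + ((1 / sig x) • S' - (lam x * P x i / (2 * sig x ^ 3 * rho x)) • innerSL ℝ x)) x := by
  have hr := (rho_pos x).ne'
  have hs := (sig_pos x).ne'
  have hri : HasFDerivAt (fun y => (rho y)⁻¹) ((-(rho x ^ 2)⁻¹) • (1 / rho x) • innerSL ℝ x) x :=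
    (hasDerivAt_inv hr).comp_hasFDerivAt x (rho_deriv x)
  have hsi : HasFDerivAt (fun y => (sig y)⁻¹)
      ((-(sig x ^ 2)⁻¹) • (1 / (2 * sig x * rho x)) • innerSL ℝ x) x :=
    (hasDerivAt_inv hs).comp_hasFDerivAt x (sig_deriv x)
  have h1 := ((hasFDerivAt_pr i x).mul hri).const_mul (kap i)
  have h2 := hS.mul hsi
  have h3 := h1.add h2
  have he : comp i = fun y => kap i * (y i * (rho y)⁻¹) + lam y * P y i * (sig y)⁻¹ := by
    funext y
    simp only [comp, div_eq_mul_inv]
  rw [he]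
  convert! h3 using 1
  ext v
  simp only [add_apply, sub_apply,
    smul_apply, smul_eq_mul]
  field_simp
  ring

/-- the map -/
noncomputable def f (x : E3) : E3 :=
  comp 0 x • EuclideanSpace.single 0 1 + comp 1 x • EuclideanSpace.single 1 1
    + comp 2 x • EuclideanSpace.single 2 1

lemma f_apply (x : E3) (i : Fin 3) : f x i = comp i x := by
  fin_cases i <;> simp [f]

/-! ### Linear algebra -/

lemma det_eq (T : E3 →L[ℝ] E3) :
    LinearMap.det T.toLinearMap = det3 (fun i j => T (EuclideanSpace.single j 1) i) := by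
  rw [← LinearMap.det_toMatrix (EuclideanSpace.basisFun (Fin 3) ℝ).toBasis, Matrix.det_fin_three]
  simp [LinearMap.toMatrix_apply, det3]

lemma norm_le_sum (v : E3) : ‖v‖ ≤ |v 0| + |v 1| + |v 2| := by
  have h : ‖v‖ ^ 2 ≤ (|v 0| + |v 1| + |v 2|) ^ 2 := by
    rw [EuclideanSpace.norm_sq_eq, Fin.sum_univ_three]
    simp only [Real.norm_eq_abs]
    have a := abs_nonneg (v 0)
    have b := abs_nonneg (v 1)
    have c := abs_nonneg (v 2)
    nlinarith [mul_nonneg a b, mul_nonneg a c, mul_nonneg b c]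
  exact (pow_le_pow_iff_left₀ (norm_nonneg _) (by positivity) two_ne_zero).1 h

lemma abs_coord_le (v : E3) (i : Fin 3) : |v i| ≤ ‖v‖ := by
  have := PiLp.norm_apply_le v i
  simpa using this

lemma opNorm_le {T : E3 →L[ℝ] E3} {c : ℝ} (hc : 0 ≤ c)
    (h : ∀ i j : Fin 3, |T (EuclideanSpace.single j 1) i| ≤ c) : ‖T‖ ≤ 9 * c := by
  refine ContinuousLinearMap.opNorm_le_bound _ (by positivity) fun v => ?_
  have hv : v = v 0 • EuclideanSpace.single 0 1 + v 1 • EuclideanSpace.single 1 1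
      + v 2 • EuclideanSpace.single 2 1 := by
    ext i
    fin_cases i <;> simp
  have hcol : ∀ j : Fin 3, ‖T (EuclideanSpace.single j 1)‖ ≤ 3 * c := by
    intro j
    refine (norm_le_sum _).trans ?_
    linarith [h 0 j, h 1 j, h 2 j]
  have h0 := abs_coord_le v 0
  have h1 := abs_coord_le v 1
  have h2 := abs_coord_le v 2
  conv_lhs => rw [hv]
  rw [map_add, map_add, map_smul, map_smul, map_smul]
  refine (norm_add₃_le).trans ?_
  rw [norm_smul, norm_smul, norm_smul]
  simp only [Real.norm_eq_abs]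
  have k0 : |v 0| * ‖T (EuclideanSpace.single 0 1)‖ ≤ ‖v‖ * (3 * c) :=
    mul_le_mul h0 (hcol 0) (norm_nonneg _) (norm_nonneg _)
  have k1 : |v 1| * ‖T (EuclideanSpace.single 1 1)‖ ≤ ‖v‖ * (3 * c) :=
    mul_le_mul h1 (hcol 1) (norm_nonneg _) (norm_nonneg _)
  have k2 : |v 2| * ‖T (EuclideanSpace.single 2 1)‖ ≤ ‖v‖ * (3 * c) :=
    mul_le_mul h2 (hcol 2) (norm_nonneg _) (norm_nonneg _)
  linarith

lemma prod_pert {a b c a' b' c' : ℝ} (ha : |a| ≤ 2) (hb : |b| ≤ 2) (hc : |c| ≤ 2)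
    (ha' : |a' - a| ≤ 1 / 400) (hb' : |b' - b| ≤ 1 / 400) (hc' : |c' - c| ≤ 1 / 400) :
    |a' * b' * c' - a * b * c| ≤ 1 / 20 := by
  obtain ⟨u, rfl⟩ : ∃ u, a' = a + u := ⟨a' - a, by ring⟩
  obtain ⟨v, rfl⟩ : ∃ v, b' = b + v := ⟨b' - b, by ring⟩
  obtain ⟨w, rfl⟩ : ∃ w, c' = c + w := ⟨c' - c, by ring⟩
  have hu : |u| ≤ 1 / 400 := by simpa using ha'
  have hv : |v| ≤ 1 / 400 := by simpa using hb'
  have hw : |w| ≤ 1 / 400 := by simpa using hc'
  have e : (a + u) * (b + v) * (c + w) - a * b * c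
      = u * (b + v) * (c + w) + a * v * (c + w) + a * b * w := by ring
  rw [e]
  have hbv : |b + v| ≤ 2.01 := (abs_add_le _ _).trans (by norm_num at hv ⊢; linarith)
  have hcw : |c + w| ≤ 2.01 := (abs_add_le _ _).trans (by norm_num at hw ⊢; linarith)
  have t1 : |u * (b + v) * (c + w)| ≤ 1 / 400 * 2.01 * 2.01 := by
    rw [abs_mul, abs_mul]
    gcongr
  have t2 : |a * v * (c + w)| ≤ 2 * (1 / 400) * 2.01 := by
    rw [abs_mul, abs_mul]
    gcongr
  have t3 : |a * b * w| ≤ 2 * 2 * (1 / 400) := by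
    rw [abs_mul, abs_mul]
    gcongr
  refine (abs_add_three _ _ _).trans ?_
  norm_num at t1 t2 t3 ⊢
  linarith

lemma det_pert {M N : Fin 3 → Fin 3 → ℝ} (hM : ∀ i j, |M i j| ≤ 2) (hd : 1 ≤ det3 M)
    (hN : ∀ i j, |N i j - M i j| ≤ 1 / 400) : 1 / 2 ≤ det3 N := by
  have h1 := abs_le.1 (prod_pert (hM 0 0) (hM 1 1) (hM 2 2) (hN 0 0) (hN 1 1) (hN 2 2))
  have h2 := abs_le.1 (prod_pert (hM 0 0) (hM 1 2) (hM 2 1) (hN 0 0) (hN 1 2) (hN 2 1))
  have h3 := abs_le.1 (prod_pert (hM 0 1) (hM 1 0) (hM 2 2) (hN 0 1) (hN 1 0) (hN 2 2))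
  have h4 := abs_le.1 (prod_pert (hM 0 1) (hM 1 2) (hM 2 0) (hN 0 1) (hN 1 2) (hN 2 0))
  have h5 := abs_le.1 (prod_pert (hM 0 2) (hM 1 0) (hM 2 1) (hN 0 2) (hN 1 0) (hN 2 1))
  have h6 := abs_le.1 (prod_pert (hM 0 2) (hM 1 1) (hM 2 0) (hN 0 2) (hN 1 1) (hN 2 0))
  rw [det3] at hd ⊢
  linarith [h1.1, h1.2, h2.1, h2.2, h3.1, h3.2, h4.1, h4.2, h5.1, h5.2, h6.1, h6.2]

lemma det3_smul (c : ℝ) (N : Fin 3 → Fin 3 → ℝ) : det3 (fun i j => c * N i j) = c ^ 3 * det3 N := by
  simp only [det3]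
  ring

/-- The distortion inequality at good points. -/
lemma distortion {x : E3} (hx : Good x) :
    ‖fderiv ℝ f x‖ ^ 3 ≤ 20000 * LinearMap.det (fderiv ℝ f x).toLinearMap := by
  obtain ⟨M, hM, hd, hS⟩ := sine_deriv hx
  have hr := rho_pos x
  have hs := sig_pos x
  have hl := lam_pos x
  have hl1 := one_le_lam x
  have hs3 := sig_ge x
  let S' : Fin 3 → (E3 →L[ℝ] ℝ) := fun i => lam x • (M i 0 • pr 0 + M i 1 • pr 1 + M i 2 • pr 2)
  let C : Fin 3 → (E3 →L[ℝ] ℝ) := fun i =>
    kap i • ((1 / rho x) • pr i - (x i / rho x ^ 3) • innerSL ℝ x)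
      + ((1 / sig x) • S' i - (lam x * P x i / (2 * sig x ^ 3 * rho x)) • innerSL ℝ x)
  have hC : ∀ i, HasFDerivAt (comp i) (C i) x := fun i => comp_deriv i (hS i)
  have hf : HasFDerivAt f ((C 0).smulRight (EuclideanSpace.single 0 1)
      + (C 1).smulRight (EuclideanSpace.single 1 1)
      + (C 2).smulRight (EuclideanSpace.single 2 1)) x :=
    (((hC 0).smul_const _).add ((hC 1).smul_const _)).add ((hC 2).smul_const _)
  rw [hf.fderiv]
  set T : E3 →L[ℝ] E3 := (C 0).smulRight (EuclideanSpace.single 0 1)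
      + (C 1).smulRight (EuclideanSpace.single 1 1)
      + (C 2).smulRight (EuclideanSpace.single 2 1) with hT
  have hTij : ∀ i j : Fin 3, T (EuclideanSpace.single j 1) i = C i (EuclideanSpace.single j 1) := by
    intro i j
    rw [hT]
    fin_cases i <;> simp
  -- normalised matrix
  let c : ℝ := lam x / sig x
  have hc : 0 < c := by positivity
  let N : Fin 3 → Fin 3 → ℝ := fun i j => C i (EuclideanSpace.single j 1) / c
  have hCN : ∀ i j, C i (EuclideanSpace.single j 1) = c * N i j := by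
    intro i j
    simp only [N]
    field_simp
  have hprj : ∀ i j : Fin 3, pr i (EuclideanSpace.single j 1) = if i = j then 1 else 0 := by
    intro i j
    rw [pr_apply]
    simp
  have hinner : ∀ j : Fin 3, innerSL ℝ x (EuclideanSpace.single j 1) = x j := by
    intro j
    rw [innerSL_apply_apply, EuclideanSpace.inner_single_right]
    simp
  have hS' : ∀ i j : Fin 3, S' i (EuclideanSpace.single j 1) = lam x * M i j := by
    intro i j
    simp only [S', smul_apply, add_apply, smul_eq_mul,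
      hprj]
    fin_cases j <;> simp
  have hNM : ∀ i j, |N i j - M i j| ≤ 1 / 400 := by
    intro i j
    have e : N i j - M i j = (sig x / lam x) * (kap i * ((1 / rho x) * (if i = j then 1 else 0)
        - (x i / rho x ^ 3) * x j)) - P x i * x j / (2 * sig x ^ 2 * rho x) := by
      simp only [N, C, c, smul_apply, add_apply,
        sub_apply, smul_eq_mul, hprj, hinner, hS']
      field_simp
      ring
    have hxi : |x i| ≤ rho x := (abs_coord_le x i).trans (norm_le_rho x)
    have hxj : |x j| ≤ rho x := (abs_coord_le x j).trans (norm_le_rho x)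
    have b1 : |(1 / rho x) * (if i = j then 1 else 0) - (x i / rho x ^ 3) * x j| ≤ 2 / rho x := by
      refine (abs_sub _ _).trans ?_
      have c1 : |(1 / rho x) * (if i = j then (1 : ℝ) else 0)| ≤ 1 / rho x := by
        rw [abs_mul, abs_of_pos (by positivity : 0 < 1 / rho x)]
        split_ifs
        · simp
        · simp; positivity
      have c2 : |(x i / rho x ^ 3) * x j| ≤ 1 / rho x := by
        rw [abs_mul, abs_div, abs_of_pos (by positivity : 0 < rho x ^ 3), div_mul_eq_mul_div,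
          div_le_div_iff₀ (by positivity) hr]
        calc |x i| * |x j| * rho x ≤ rho x * rho x * rho x := by gcongr
          _ = 1 * rho x ^ 3 := by ring
      calc _ ≤ 1 / rho x + 1 / rho x := add_le_add c1 c2
        _ = 2 / rho x := by ring
    have b2 : |(sig x / lam x) * (kap i * ((1 / rho x) * (if i = j then 1 else 0)
        - (x i / rho x ^ 3) * x j))| ≤ 1 / 500 := by
      rw [abs_mul, abs_mul, abs_of_pos (by positivity : 0 < sig x / lam x)]
      calc sig x / lam x * (|kap i| * _) ≤ sig x / 1 * (1 * (2 / rho x)) := by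
            gcongr
            exact kap_abs i
        _ = 2 / sig x := by
            rw [← sig_sq]
            field_simp
        _ ≤ 2 / 1000 := by gcongr
        _ = 1 / 500 := by norm_num
    have b3 : |P x i * x j / (2 * sig x ^ 2 * rho x)| ≤ 1 / 2000 := by
      rw [abs_div, abs_mul, abs_of_pos (by positivity : 0 < 2 * sig x ^ 2 * rho x),
        div_le_div_iff₀ (by positivity) (by norm_num)]
      have hP := P_abs_le x i
      have h1 : (1000 : ℝ) ≤ sig x ^ 2 := by nlinarith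
      calc |P x i| * |x j| * 2000 ≤ 1 * rho x * 2000 := by gcongr
        _ ≤ 1 * (2 * 1000 * rho x) := by linarith
        _ ≤ 1 * (2 * sig x ^ 2 * rho x) := by gcongr
    rw [e]
    refine (abs_sub _ _).trans ?_
    linarith
  have hdet : LinearMap.det T.toLinearMap = c ^ 3 * det3 N := by
    rw [det_eq, ← det3_smul]
    congr 1
    funext i j
    rw [hTij, hCN]
  have hdN : 1 / 2 ≤ det3 N := det_pert hM hd hNM
  have hnorm : ‖T‖ ≤ 9 * (c * 2.01) := by
    apply opNorm_le (by positivity)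
    intro i j
    rw [hTij, hCN, abs_mul, abs_of_pos hc]
    have h1 : |N i j| ≤ 2.01 := by
      have : N i j = M i j + (N i j - M i j) := by ring
      rw [this]
      refine (abs_add_le _ _).trans ?_
      have := hM i j
      have := hNM i j
      norm_num at *
      linarith
    gcongr
  rw [hdet]
  calc ‖T‖ ^ 3 ≤ (9 * (c * 2.01)) ^ 3 := by gcongr
    _ = (9 * 2.01) ^ 3 * c ^ 3 := by ring
    _ ≤ 10000 * c ^ 3 := by
        gcongr
        norm_num
    _ = 20000 * (c ^ 3 * (1 / 2)) := by ring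
    _ ≤ 20000 * (c ^ 3 * det3 N) := by gcongr

end Pool.Agent.Lib_MP_53ae57_an
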