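-- Quasiregular map of order one with a circle of asymptotic values (not handed in: known result).
import Pool.Agent.Lib_MP_53ae57_an.Map

set_option autoImplicit false
open Filter Topology

namespace Pool.Agent.Lib_MP_53ae57_an.Final

open Pool.Agent.Lib_MP_53ae57_an MeasureTheory Metric Set

/-!
The counterexample (dimension three).  Let `tau` be the triangle wave of period `4`, and let
`S(x) = exp |x₃| (tau x₁, tau x₂, smin (tau (x₁+1), tau (x₂+1), x₃))`, where `smin` is the minimum of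
the absolute values with the product of the signs.  `S` is a quasiregular analogue of the sine,
bounded on the plane `x₃ = 0`, whose almost everywhere derivative is comparable to `exp |x₃|` in all
directions.  The slowly varying perturbation
`f(x) = (x₁, x₂, 0) / rho(x) + S(x) / sqrt (rho(x))`, `rho(x) = sqrt (10¹² + |x|²)`,
is still quasiregular, has order one, and `f(t w) → w` as `t → ∞` for every unit vector `w` of the
plane `x₃ = 0`.
-/

lemma ll_mul {u v : E3 → ℝ} (hu : LocallyLipschitz u) (hv : LocallyLipschitz v) :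
    LocallyLipschitz (fun x => u x * v x) :=
  ((contDiff_mul (𝕜 := ℝ) (𝔸 := ℝ) (n := 1)).locallyLipschitz).comp (hu.prodMk hv)

lemma ll_add {u v : E3 → ℝ} (hu : LocallyLipschitz u) (hv : LocallyLipschitz v) :
    LocallyLipschitz (fun x => u x + v x) :=
  ((contDiff_add (𝕜 := ℝ) (F := ℝ) (n := 1)).locallyLipschitz).comp (hu.prodMk hv)

lemma ll_const (c : ℝ) : LocallyLipschitz (fun _ : E3 => c) := LocallyLipschitz.const c

lemma ll_neg {u : E3 → ℝ} (hu : LocallyLipschitz u) : LocallyLipschitz (fun x => - u x) := by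
  have := ll_mul (ll_const (-1)) hu
  simpa using this

lemma ll_abs {u : E3 → ℝ} (hu : LocallyLipschitz u) : LocallyLipschitz (fun x => |u x|) :=
  (lipschitzWith_one_norm (E := ℝ)).locallyLipschitz.comp hu

lemma ll_smin {u v : E3 → ℝ} (hu : LocallyLipschitz u) (hv : LocallyLipschitz v) :
    LocallyLipschitz (fun x => smin (u x) (v x)) := by
  have h := ll_mul (ll_add (ll_abs (ll_add hu hv)) (ll_neg (ll_abs (ll_add hu (ll_neg hv)))))
    (ll_const (1 / 2))
  have e : (fun x => smin (u x) (v x)) =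
      fun x => (|u x + v x| + -|u x + -v x|) * (1 / 2) := by
    funext x
    rw [smin, ← sub_eq_add_neg, ← sub_eq_add_neg]
    ring
  rw [e]
  exact h

lemma ll_coord (i : Fin 3) : LocallyLipschitz (fun x : E3 => x i) :=
  (pr i).lipschitz.locallyLipschitz

lemma ll_tau {u : E3 → ℝ} (hu : LocallyLipschitz u) : LocallyLipschitz (fun x => tau (u x)) :=
  tau_lipschitz.locallyLipschitz.comp hu

lemma ll_P (i : Fin 3) : LocallyLipschitz (fun x => P x i) := by
  fin_cases i
  · exact ll_tau (ll_coord 0)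
  · exact ll_tau (ll_coord 1)
  · exact ll_smin (ll_smin (ll_tau (ll_add (ll_coord 0) (ll_const 1)))
      (ll_tau (ll_add (ll_coord 1) (ll_const 1)))) (ll_coord 2)

lemma ll_lam : LocallyLipschitz lam :=
  ((Real.contDiff_exp (n := 1)).locallyLipschitz).comp (ll_abs (ll_coord 2))

lemma contDiff_rho : ContDiff ℝ 1 rho := by
  have h : ContDiff ℝ 1 (fun x : E3 => (10 : ℝ) ^ 12 + ‖x‖ ^ 2) :=
    contDiff_const.add (contDiff_norm_sq ℝ)
  exact h.sqrt (fun x => by positivity)

lemma contDiff_sig : ContDiff ℝ 1 sig := contDiff_rho.sqrt (fun x => (rho_pos x).ne')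

lemma ll_comp (i : Fin 3) : LocallyLipschitz (comp i) := by
  have h1 : LocallyLipschitz (fun x : E3 => (rho x)⁻¹) :=
    (contDiff_rho.inv (fun x => (rho_pos x).ne')).locallyLipschitz
  have h2 : LocallyLipschitz (fun x : E3 => (sig x)⁻¹) :=
    (contDiff_sig.inv (fun x => (sig_pos x).ne')).locallyLipschitz
  have h := ll_add (ll_mul (ll_const (kap i)) (ll_mul (ll_coord i) h1))
    (ll_mul (ll_mul ll_lam (ll_P i)) h2)
  have e : comp i = fun x => kap i * (x i * (rho x)⁻¹) + lam x * P x i * (sig x)⁻¹ := by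
    funext y
    simp only [comp, div_eq_mul_inv]
  rw [e]
  exact h

lemma ll_smul {u : E3 → ℝ} (hu : LocallyLipschitz u) (w : E3) :
    LocallyLipschitz (fun x => u x • w) := by
  have h : LipschitzWith _ ((ContinuousLinearMap.id ℝ ℝ).smulRight w) :=
    ContinuousLinearMap.lipschitz _
  exact h.locallyLipschitz.comp hu

lemma ll_addE {u v : E3 → E3} (hu : LocallyLipschitz u) (hv : LocallyLipschitz v) :
    LocallyLipschitz (fun x => u x + v x) := by
  intro x
  obtain ⟨K, s, hs, hK⟩ := hu x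
  obtain ⟨L, t, ht, hL⟩ := hv x
  refine ⟨K + L, s ∩ t, inter_mem hs ht, ?_⟩
  exact (hK.mono inter_subset_left).add (hL.mono inter_subset_right)

lemma ll_f : LocallyLipschitz f :=
  ll_addE (ll_addE (ll_smul (ll_comp 0) _) (ll_smul (ll_comp 1) _)) (ll_smul (ll_comp 2) _)

lemma comp_le (i : Fin 3) (x : E3) : |comp i x| ≤ 1 + Real.exp ‖x‖ := by
  have hr := rho_pos x
  have hs := sig_pos x
  have h1 : |kap i * (x i / rho x)| ≤ 1 := by
    rw [abs_mul, abs_div, abs_of_pos hr]
    have h2 : |x i| / rho x ≤ 1 := by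
      rw [div_le_one hr]
      exact (abs_coord_le x i).trans (norm_le_rho x)
    calc |kap i| * (|x i| / rho x) ≤ 1 * 1 := by
          gcongr
          exact kap_abs i
      _ = 1 := one_mul 1
  have h2 : |(lam x * P x i) / sig x| ≤ Real.exp ‖x‖ := by
    rw [abs_div, abs_mul, abs_of_pos hs, abs_of_pos (lam_pos x), div_le_iff₀ hs]
    have h3 : lam x ≤ Real.exp ‖x‖ := Real.exp_le_exp.2 (abs_coord_le x 2)
    have h4 := P_abs_le x i
    have h5 : (1 : ℝ) ≤ sig x := le_trans (by norm_num) (sig_ge x)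
    gcongr
    linarith
  exact (abs_add_le _ _).trans (add_le_add h1 h2)

lemma f_growth (x : E3) : ‖f x‖ ≤ 3 + 3 * Real.exp ‖x‖ := by
  refine (norm_le_sum _).trans ?_
  rw [f_apply, f_apply, f_apply]
  linarith [comp_le 0 x, comp_le 1 x, comp_le 2 x]

lemma lower_order : ∀ R₀ : ℝ, ∃ R : ℝ, R₀ < R ∧
      ∀ x : EuclideanSpace ℝ (Fin 3), ‖x‖ = R → ‖f x‖ ≤ Real.exp (R ^ (2 : ℝ)) := by
  intro R₀
  refine ⟨max R₀ 3 + 1, lt_of_le_of_lt (le_max_left _ _) (lt_add_one _), ?_⟩
  intro x hx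
  have hR : 3 ≤ max R₀ 3 + 1 := by linarith [le_max_right R₀ 3]
  generalize max R₀ 3 + 1 = R at hx hR
  refine (f_growth x).trans ?_
  rw [hx, Real.rpow_two]
  have h1 : 4 ≤ Real.exp R := by
    have := Real.add_one_le_exp R
    linarith
  have h2 : Real.exp (2 * R) ≤ Real.exp (R ^ 2) := Real.exp_le_exp.2 (by nlinarith)
  have h3 : Real.exp (2 * R) = Real.exp R * Real.exp R := by
    rw [two_mul, Real.exp_add]
  nlinarith

/-- Every unit vector of the plane `x₃ = 0` is an asymptotic value. -/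
lemma asymptotic {w : E3} (hw : ‖w‖ = 1) (hw2 : w 2 = 0) :
    Tendsto (fun t : ℝ => f (t • w)) atTop (𝓝 w) := by
  have hrho : ∀ t : ℝ, rho (t • w) = √(10 ^ 12 + t ^ 2) := by
    intro t
    rw [rho, norm_smul, hw, mul_one, Real.norm_eq_abs, sq_abs]
  have hA : Tendsto (fun t : ℝ => t / rho (t • w)) atTop (𝓝 1) := by
    have h1 : Tendsto (fun t : ℝ => √(10 ^ 12 / t ^ 2 + 1)) atTop (𝓝 (√(0 + 1))) := by
      have h2 : Tendsto (fun t : ℝ => (10 : ℝ) ^ 12 / t ^ 2) atTop (𝓝 0) :=
        tendsto_const_nhds.div_atTop (tendsto_pow_atTop two_ne_zero)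
      exact (h2.add_const 1).sqrt
    rw [zero_add, Real.sqrt_one] at h1
    have h3 := h1.inv₀ one_ne_zero
    rw [inv_one] at h3
    refine h3.congr' ?_
    filter_upwards [eventually_gt_atTop 0] with t ht
    rw [hrho]
    have e : (10 : ℝ) ^ 12 + t ^ 2 = t ^ 2 * (10 ^ 12 / t ^ 2 + 1) := by
      field_simp
    rw [e, Real.sqrt_mul (by positivity), Real.sqrt_sq ht.le]
    field_simp
  have hB : Tendsto (fun t : ℝ => (sig (t • w))⁻¹) atTop (𝓝 0) := by
    apply tendsto_inv_atTop_zero.comp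
    have h1 : Tendsto (fun t : ℝ => √t) atTop atTop := Real.tendsto_sqrt_atTop
    refine tendsto_atTop_mono' _ ?_ h1
    filter_upwards [eventually_gt_atTop 0] with t ht
    rw [sig, hrho]
    apply Real.sqrt_le_sqrt
    apply Real.le_sqrt_of_sq_le
    linarith
  have hcomp : ∀ i : Fin 3, Tendsto (fun t : ℝ => comp i (t • w)) atTop (𝓝 (w i)) := by
    intro i
    have h1 : Tendsto (fun t : ℝ => kap i * w i * (t / rho (t • w))
        + P (t • w) i * (sig (t • w))⁻¹) atTop (𝓝 (kap i * w i * 1 + 0)) := by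
      refine (hA.const_mul _).add ?_
      refine squeeze_zero_norm (fun t => ?_) hB
      rw [norm_mul, Real.norm_eq_abs, Real.norm_eq_abs,
        abs_of_pos (inv_pos.2 (sig_pos (t • w)))]
      have := P_abs_le (t • w) i
      have h2 := (inv_pos.2 (sig_pos (t • w))).le
      nlinarith
    have h2 : kap i * w i * 1 + 0 = w i := by
      fin_cases i <;> simp [kap, hw2]
    rw [h2] at h1
    refine h1.congr fun t => ?_
    have hl : lam (t • w) = 1 := by
      rw [lam]
      simp [hw2]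
    rw [comp, hl]
    simp only [PiLp.smul_apply, smul_eq_mul]
    ring
  have hlim : w = w 0 • EuclideanSpace.single 0 1 + w 1 • EuclideanSpace.single 1 1
      + w 2 • EuclideanSpace.single 2 1 := by
    ext i
    fin_cases i <;> simp
  conv => arg 3; rw [hlim]
  exact (((hcomp 0).smul_const _).add ((hcomp 1).smul_const _)).add ((hcomp 2).smul_const _)

/-- The unit circle of the plane `x₃ = 0`. -/
noncomputable def circ (θ : ℝ) : E3 :=
  Real.cos θ • (EuclideanSpace.single 0 1 : E3) + Real.sin θ • EuclideanSpace.single 1 1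

lemma circ_zero (θ : ℝ) : circ θ 0 = Real.cos θ := by
  simp [circ]

lemma circ_two (θ : ℝ) : circ θ 2 = 0 := by
  simp [circ]

lemma circ_norm (θ : ℝ) : ‖circ θ‖ = 1 := by
  have h1 : ‖circ θ‖ ^ 2 = 1 ^ 2 := by
    rw [EuclideanSpace.norm_sq_eq, Fin.sum_univ_three]
    simp [circ]
  exact (pow_left_inj₀ (norm_nonneg _) zero_le_one two_ne_zero).1 h1

lemma circ_injOn : Set.InjOn circ (Icc 0 Real.pi) := by
  intro θ hθ θ' hθ' h
  have h0 : Real.cos θ = Real.cos θ' := by rw [← circ_zero θ, ← circ_zero θ', h]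
  exact Real.injOn_cos hθ hθ' h0

lemma circ_path (θ : ℝ) : ∃ γ : ℝ → E3, Continuous γ ∧ Tendsto (fun t => ‖γ t‖) atTop atTop ∧
    Tendsto (fun t => f (γ t)) atTop (𝓝 (circ θ)) := by
  refine ⟨fun t => t • circ θ, continuous_id.smul continuous_const, ?_,
    asymptotic (circ_norm θ) (circ_two θ)⟩
  simp only [norm_smul, circ_norm, mul_one]
  exact tendsto_norm_atTop_atTop

lemma infinite_asymptotic : Set.Infinite {a : E3 | ∃ γ : ℝ → E3, Continuous γ ∧
    Tendsto (fun t => ‖γ t‖) atTop atTop ∧ Tendsto (fun t => f (γ t)) atTop (𝓝 a)} :=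
  Set.infinite_of_injOn_mapsTo circ_injOn (fun θ _ => circ_path θ) (Icc_infinite Real.pi_pos)

/-- The negation of the preceding statement: For n ≥ 3, every continuous W^{1,n}_loc map f of ℝⁿ with ∣Df∣ⁿ ≤ K det Df a.e. whose max modulus satisfies M(R) ≤ exp(R^C) for arbitrarily large R has only finitely many limits along continuous paths tending to infinity. -/
theorem final :
    ¬ (∀ n : ℕ, 3 ≤ n → ∀ f : EuclideanSpace ℝ (Fin n) → EuclideanSpace ℝ (Fin n),
    (Continuous f ∧ ∃ K : ℝ, 1 ≤ K ∧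
      ∃ g : EuclideanSpace ℝ (Fin n) → (EuclideanSpace ℝ (Fin n) →L[ℝ] EuclideanSpace ℝ (Fin n)),
        MeasureTheory.AEStronglyMeasurable g MeasureTheory.volume ∧
        MeasureTheory.LocallyIntegrable (fun x => ‖g x‖ ^ n) MeasureTheory.volume ∧
        (∀ φ : EuclideanSpace ℝ (Fin n) → ℝ, ContDiff ℝ 1 φ → HasCompactSupport φ →
          ∀ v : EuclideanSpace ℝ (Fin n),
            ∫ x, (fderiv ℝ φ x v) • f x = - ∫ x, φ x • g x v) ∧
        (∀ᵐ x ∂MeasureTheory.volume, ‖g x‖ ^ n ≤ K * LinearMap.det (g x).toLinearMap)) →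
    (∃ C : ℝ, ∀ R₀ : ℝ, ∃ R : ℝ, R₀ < R ∧
      ∀ x : EuclideanSpace ℝ (Fin n), ‖x‖ = R → ‖f x‖ ≤ Real.exp (R ^ C)) →
    Set.Finite {a : EuclideanSpace ℝ (Fin n) | ∃ γ : ℝ → EuclideanSpace ℝ (Fin n),
      Continuous γ ∧ Tendsto (fun t => ‖γ t‖) atTop atTop ∧
      Tendsto (fun t => f (γ t)) atTop (𝓝 a)}) := by
  intro H
  have hfin := H 3 le_rfl f ⟨ll_f.continuous, 20000, by norm_num, fderiv ℝ f, aesm_fderiv f,
    locInt_pow ll_f 3, fun φ hφ hc v => weak_deriv ll_f ll_f.continuous hφ hc v,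
    ae_good.mono fun x hx => distortion hx⟩ ⟨2, lower_order⟩
  exact infinite_asymptotic hfin

end Pool.Agent.Lib_MP_53ae57_an.Final
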