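import Pool.Agent.Lib_MP_53ae57_an.Zigzag

/-!
A quasiregular sine in dimension three, and its perturbation.
-/

set_option autoImplicit false

namespace Pool.Agent.Lib_MP_53ae57_an

open MeasureTheory Metric Set Filter Topology

/-- three-dimensional Euclidean space -/
abbrev E3 : Type := EuclideanSpace ℝ (Fin 3)

/-- coordinate functional -/
noncomputable abbrev pr (i : Fin 3) : E3 →L[ℝ] ℝ := EuclideanSpace.proj i

lemma pr_apply (i : Fin 3) (x : E3) : pr i x = x i := rfl

/-! ### null sets -/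

lemma ae_ne (L : E3 →L[ℝ] ℝ) (hL : L ≠ 0) (c : ℝ) : ∀ᵐ x ∂(volume : Measure E3), L x ≠ c := by
  obtain ⟨v, hv⟩ : ∃ v, L v ≠ 0 := by
    by_contra h
    push Not at h
    exact hL (ContinuousLinearMap.ext h)
  have hker : (volume : Measure E3) (LinearMap.ker (L : E3 →ₗ[ℝ] ℝ) : Set E3) = 0 := by
    apply Measure.addHaar_submodule
    intro h
    have : v ∈ LinearMap.ker (L : E3 →ₗ[ℝ] ℝ) := by rw [h]; trivial
    exact hv this
  have hset : {x : E3 | ¬ L x ≠ c} = (fun x => -((c / L v) • v) + x) ⁻¹'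
      (LinearMap.ker (L : E3 →ₗ[ℝ] ℝ) : Set E3) := by
    ext x
    simp only [not_not, mem_ofPred_eq, mem_preimage, SetLike.mem_coe, LinearMap.mem_ker,
      ContinuousLinearMap.coe_coe, map_add, map_neg, map_smul, smul_eq_mul]
    rw [div_mul_cancel₀ _ hv]
    constructor
    · intro h; linarith
    · intro h; linarith
  rw [ae_iff, hset, measure_preimage_add]
  exact hker

lemma ae_ne_int (L : E3 →L[ℝ] ℝ) (hL : L ≠ 0) :
    ∀ᵐ x ∂(volume : Measure E3), ∀ l : ℤ, L x ≠ l :=
  ae_all_iff.2 fun l => ae_ne L hL l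

/-- The good points. -/
structure Good (x : E3) : Prop where
  h0 : ∀ l : ℤ, x 0 ≠ l
  h1 : ∀ l : ℤ, x 1 ≠ l
  h2 : ∀ l : ℤ, x 2 ≠ l
  h01 : ∀ l : ℤ, x 0 + x 1 ≠ l
  h01' : ∀ l : ℤ, x 0 - x 1 ≠ l
  h02 : ∀ l : ℤ, x 0 + x 2 ≠ l
  h02' : ∀ l : ℤ, x 0 - x 2 ≠ l
  h12 : ∀ l : ℤ, x 1 + x 2 ≠ l
  h12' : ∀ l : ℤ, x 1 - x 2 ≠ l

lemma pr_ne (i : Fin 3) : pr i ≠ 0 := by
  intro h
  have := DFunLike.congr_fun h (EuclideanSpace.single i (1 : ℝ))
  simp at this

lemma add_ne {i j : Fin 3} (hij : i ≠ j) : pr i + pr j ≠ 0 := by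
  intro h
  have := DFunLike.congr_fun h (EuclideanSpace.single i (1 : ℝ))
  simp [hij.symm] at this

lemma sub_ne {i j : Fin 3} (hij : i ≠ j) : pr i - pr j ≠ 0 := by
  intro h
  have := DFunLike.congr_fun h (EuclideanSpace.single i (1 : ℝ))
  simp [hij.symm] at this

lemma ae_good : ∀ᵐ x ∂(volume : Measure E3), Good x := by
  filter_upwards [ae_ne_int (pr 0) (pr_ne 0), ae_ne_int (pr 1) (pr_ne 1),
    ae_ne_int (pr 2) (pr_ne 2),
    ae_ne_int (pr 0 + pr 1) (add_ne (by decide)), ae_ne_int (pr 0 - pr 1) (sub_ne (by decide)),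
    ae_ne_int (pr 0 + pr 2) (add_ne (by decide)), ae_ne_int (pr 0 - pr 2) (sub_ne (by decide)),
    ae_ne_int (pr 1 + pr 2) (add_ne (by decide)), ae_ne_int (pr 1 - pr 2) (sub_ne (by decide))]
    with x a1 a2 a3 a4 a5 a6 a7 a8 a9
  exact ⟨a1, a2, a3, a4, a5, a6, a7, a8, a9⟩

/-! ### The sine -/

/-- the third coordinate of the profile -/
noncomputable def W (x : E3) : ℝ := smin (smin (tau (x 0 + 1)) (tau (x 1 + 1))) (x 2)

/-- the exponential factor -/
noncomputable def lam (x : E3) : ℝ := Real.exp |x 2|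

/-- the profile -/
noncomputable def P (x : E3) : Fin 3 → ℝ := ![tau (x 0), tau (x 1), W x]

lemma lam_pos (x : E3) : 0 < lam x := Real.exp_pos _

lemma one_le_lam (x : E3) : 1 ≤ lam x := Real.one_le_exp (abs_nonneg _)

lemma W_abs_le (x : E3) : |W x| ≤ 1 :=
  (smin_abs_le_left _ _).trans ((smin_abs_le_left _ _).trans (tau_abs_le _))

lemma P_abs_le (x : E3) (i : Fin 3) : |P x i| ≤ 1 := by
  fin_cases i
  · exact tau_abs_le _
  · exact tau_abs_le _
  · exact W_abs_le x

lemma hasFDerivAt_smin_left {p r : E3 → ℝ} {p' : E3 →L[ℝ] ℝ} {x : E3} (hp : HasFDerivAt p p' x)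
    (hr : ContinuousAt r x) {s : ℝ} (hs : s = 1 ∨ s = -1) (h : |p x| < s * r x) :
    HasFDerivAt (fun y => smin (p y) (r y)) (s • p') x := by
  have h1 : ∀ᶠ y in 𝓝 x, |p y| < s * r y :=
    (hp.continuousAt.abs).eventually_lt (continuousAt_const.mul hr) h
  have h2 : (fun y => smin (p y) (r y)) =ᶠ[𝓝 x] fun y => s * p y := by
    filter_upwards [h1] with y hy
    exact smin_of_lt hs hy
  exact (hp.const_mul s).congr_of_eventuallyEq h2

lemma hasFDerivAt_smin_right {p r : E3 → ℝ} {r' : E3 →L[ℝ] ℝ} {x : E3}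
    (hp : ContinuousAt p x) (hr : HasFDerivAt r r' x) {s : ℝ} (hs : s = 1 ∨ s = -1)
    (h : |r x| < s * p x) :
    HasFDerivAt (fun y => smin (p y) (r y)) (s • r') x := by
  have := hasFDerivAt_smin_left hr hp hs h
  simpa only [smin_comm] using this

lemma hasFDerivAt_pr (i : Fin 3) (x : E3) : HasFDerivAt (fun y : E3 => y i) (pr i) x :=
  (pr i).hasFDerivAt

/-- explicit determinant -/
def det3 (M : Fin 3 → Fin 3 → ℝ) : ℝ :=
  M 0 0 * M 1 1 * M 2 2 - M 0 0 * M 1 2 * M 2 1 - M 0 1 * M 1 0 * M 2 2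
    + M 0 1 * M 1 2 * M 2 0 + M 0 2 * M 1 0 * M 2 1 - M 0 2 * M 1 1 * M 2 0

lemma abs_one_or {s : ℝ} (hs : s = 1 ∨ s = -1) : |s| = 1 := by
  rcases hs with rfl | rfl <;> simp

lemma mul_self_one_or {s : ℝ} (hs : s = 1 ∨ s = -1) : s * s = 1 := by
  rcases hs with rfl | rfl <;> norm_num

lemma mul_one_or {s t : ℝ} (hs : s = 1 ∨ s = -1) (ht : t = 1 ∨ t = -1) :
    s * t = 1 ∨ s * t = -1 := by
  rcases hs with rfl | rfl <;> rcases ht with rfl | rfl <;> norm_num

/-- Derivative of the sine at good points. -/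
lemma sine_deriv {x : E3} (hx : Good x) : ∃ M : Fin 3 → Fin 3 → ℝ, (∀ i j, |M i j| ≤ 2) ∧
    1 ≤ det3 M ∧ ∀ i, HasFDerivAt (fun y => lam y * P y i)
      (lam x • (M i 0 • pr 0 + M i 1 • pr 1 + M i 2 • pr 2)) x := by
  obtain ⟨a, b, ha, hb, hτ, hζ, hapos, hbpos, hab, l, hl⟩ := tau_local hx.h0
  obtain ⟨a', b', ha', hb', hτ', hζ', hapos', hbpos', hab', l', hl'⟩ := tau_local hx.h1
  -- the sign of the third coordinate
  have hx2 : x 2 ≠ 0 := by simpa using hx.h2 0
  obtain ⟨s, hs, hsx⟩ : ∃ s : ℝ, (s = 1 ∨ s = -1) ∧ |x 2| = s * x 2 := by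
    rcases lt_or_gt_of_ne hx2 with h | h
    · exact ⟨-1, Or.inr rfl, by rw [abs_of_neg h]; ring⟩
    · exact ⟨1, Or.inl rfl, by rw [abs_of_pos h]; ring⟩
  have hspos : 0 < s * x 2 := by rw [← hsx]; exact abs_pos.2 hx2
  have hlam : HasFDerivAt lam ((lam x * s) • pr 2) x := by
    have h1 : HasFDerivAt (fun y : E3 => |y 2|) (s • pr 2) x := by
      have hev : (fun y : E3 => |y 2|) =ᶠ[𝓝 x] fun y => s * y 2 := by
        have hc : ContinuousAt (fun y : E3 => s * y 2) x :=
          continuousAt_const.mul (hasFDerivAt_pr 2 x).continuousAt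
        filter_upwards [hc.eventually (lt_mem_nhds hspos)] with y hy
        rcases hs with rfl | rfl
        · rw [abs_of_pos (by linarith)]; ring
        · rw [abs_of_neg (by linarith)]; ring
      exact ((hasFDerivAt_pr 2 x).const_mul s).congr_of_eventuallyEq hev
    have h2 := h1.exp
    rw [smul_smul] at h2
    exact h2
  have dτ : HasFDerivAt (fun y : E3 => tau (y 0)) (b • pr 0) x :=
    HasDerivAt.comp_hasFDerivAt (h₂ := tau) (f := fun y : E3 => y 0) x hτ (hasFDerivAt_pr 0 x)
  have dτ' : HasFDerivAt (fun y : E3 => tau (y 1)) (b' • pr 1) x :=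
    HasDerivAt.comp_hasFDerivAt (h₂ := tau) (f := fun y : E3 => y 1) x hτ' (hasFDerivAt_pr 1 x)
  have dζ : HasFDerivAt (fun y : E3 => tau (y 0 + 1)) ((-a) • pr 0) x :=
    HasDerivAt.comp_hasFDerivAt (h₂ := tau) (f := fun y : E3 => y 0 + 1) x hζ
      ((hasFDerivAt_pr 0 x).add_const _)
  have dζ' : HasFDerivAt (fun y : E3 => tau (y 1 + 1)) ((-a') • pr 1) x :=
    HasDerivAt.comp_hasFDerivAt (h₂ := tau) (f := fun y : E3 => y 1 + 1) x hζ'
      ((hasFDerivAt_pr 1 x).add_const _)
  have hz : |tau (x 0 + 1)| = b * tau (x 0 + 1) := by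
    rcases hb with rfl | rfl
    · rw [abs_of_pos (by linarith)]; ring
    · rw [abs_of_neg (by linarith)]; ring
  have hz' : |tau (x 1 + 1)| = b' * tau (x 1 + 1) := by
    rcases hb' with rfl | rfl
    · rw [abs_of_pos (by linarith)]; ring
    · rw [abs_of_neg (by linarith)]; ring
  have ht : |tau (x 0)| = a * tau (x 0) := by
    rcases ha with rfl | rfl
    · rw [abs_of_pos (by linarith)]; ring
    · rw [abs_of_neg (by linarith)]; ring
  have ht' : |tau (x 1)| = a' * tau (x 1) := by
    rcases ha' with rfl | rfl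
    · rw [abs_of_pos (by linarith)]; ring
    · rw [abs_of_neg (by linarith)]; ring
  -- pairwise distinct
  have n12 : |tau (x 0 + 1)| ≠ |tau (x 1 + 1)| := by
    rw [hl, hl']
    intro h
    rcases abs_eq_abs.1 h with h | h
    · exact hx.h01' (l - l') (by push_cast; linarith)
    · exact hx.h01 (l + l') (by push_cast; linarith)
  have n13 : |tau (x 0 + 1)| ≠ |x 2| := by
    rw [hl]
    intro h
    rcases abs_eq_abs.1 h with h | h
    · exact hx.h02' l (by linarith)
    · exact hx.h02 l (by linarith)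
  have n23 : |tau (x 1 + 1)| ≠ |x 2| := by
    rw [hl']
    intro h
    rcases abs_eq_abs.1 h with h | h
    · exact hx.h12' l' (by linarith)
    · exact hx.h12 l' (by linarith)
  -- the derivative of `W`
  have hW : ∃ w0 w1 w2 : ℝ, |w0| ≤ 1 ∧ |w1| ≤ 1 ∧ |w2| ≤ 1 ∧
      HasFDerivAt W (w0 • pr 0 + w1 • pr 1 + w2 • pr 2) x ∧
      1 ≤ b * b' * (w2 + s * W x) - b * s * tau (x 1) * w1 - b' * s * tau (x 0) * w0 := by
    have bb := mul_self_one_or hb
    have bb' := mul_self_one_or hb'
    have ss := mul_self_one_or hs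
    -- inner minimum
    rcases lt_or_gt_of_ne n12 with h12 | h12
    · have hM : HasFDerivAt (fun y : E3 => smin (tau (y 0 + 1)) (tau (y 1 + 1)))
          (b' • (-a) • pr 0) x :=
        hasFDerivAt_smin_left dζ dζ'.continuousAt hb' (by rw [← hz']; exact h12)
      have hMx : smin (tau (x 0 + 1)) (tau (x 1 + 1)) = b' * tau (x 0 + 1) :=
        smin_of_lt hb' (by rw [← hz']; exact h12)
      rcases lt_or_gt_of_ne n13 with h13 | h13
      · -- the first is the smallest
        have hlt : |smin (tau (x 0 + 1)) (tau (x 1 + 1))| < s * x 2 := by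
          rw [hMx, abs_mul, abs_one_or hb', one_mul, ← hsx]
          exact h13
        have hWd := hasFDerivAt_smin_left hM (hasFDerivAt_pr 2 x).continuousAt hs hlt
        have hWx : W x = s * (b' * tau (x 0 + 1)) := by
          rw [W, smin_of_lt hs hlt, hMx]
        refine ⟨s * (b' * (-a)), 0, 0, ?_, by simp, by simp, ?_, ?_⟩
        · rw [abs_mul, abs_mul, abs_neg, abs_one_or hs, abs_one_or hb', abs_one_or ha]
          norm_num
        · convert! hWd using 1
          simp only [smul_smul, zero_smul, add_zero]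
        · rw [hWx]
          have e : b * b' * (0 + s * (s * (b' * tau (x 0 + 1)))) - b * s * tau (x 1) * 0 -
              b' * s * tau (x 0) * (s * (b' * -a))
              = (s * s) * (b' * b') * (b * tau (x 0 + 1)) +
                (s * s) * (b' * b') * (a * tau (x 0)) := by ring
          rw [e, ss, bb']
          linarith
      · -- the third is the smallest
        have hlt : |x 2| < (b * b') * smin (tau (x 0 + 1)) (tau (x 1 + 1)) := by
          rw [hMx]
          have : b * b' * (b' * tau (x 0 + 1)) = b' * b' * (b * tau (x 0 + 1)) := by ring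
          rw [this, bb', one_mul, ← hz]
          exact h13
        have hWd := hasFDerivAt_smin_right hM.continuousAt (hasFDerivAt_pr 2 x)
          (mul_one_or hb hb') hlt
        have hWx : W x = b * b' * x 2 := by
          rw [W, smin_comm, smin_of_lt (mul_one_or hb hb') hlt]
        refine ⟨0, 0, b * b', by simp, by simp, ?_, ?_, ?_⟩
        · rw [abs_mul, abs_one_or hb, abs_one_or hb']
          norm_num
        · convert! hWd using 1
          simp only [zero_smul, zero_add]
        · rw [hWx]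
          have e : b * b' * (b * b' + s * (b * b' * x 2)) - b * s * tau (x 1) * 0 -
              b' * s * tau (x 0) * 0 = (b * b) * (b' * b') * (1 + s * x 2) := by ring
          rw [e, bb, bb']
          linarith
    · have hM : HasFDerivAt (fun y : E3 => smin (tau (y 0 + 1)) (tau (y 1 + 1)))
          (b • (-a') • pr 1) x :=
        hasFDerivAt_smin_right dζ.continuousAt dζ' hb (by rw [← hz]; exact h12)
      have hMx : smin (tau (x 0 + 1)) (tau (x 1 + 1)) = b * tau (x 1 + 1) := by
        rw [smin_comm]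
        exact smin_of_lt hb (by rw [← hz]; exact h12)
      rcases lt_or_gt_of_ne n23 with h23 | h23
      · -- the second is the smallest
        have hlt : |smin (tau (x 0 + 1)) (tau (x 1 + 1))| < s * x 2 := by
          rw [hMx, abs_mul, abs_one_or hb, one_mul, ← hsx]
          exact h23
        have hWd := hasFDerivAt_smin_left hM (hasFDerivAt_pr 2 x).continuousAt hs hlt
        have hWx : W x = s * (b * tau (x 1 + 1)) := by
          rw [W, smin_of_lt hs hlt, hMx]
        refine ⟨0, s * (b * (-a')), 0, by simp, ?_, by simp, ?_, ?_⟩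
        · rw [abs_mul, abs_mul, abs_neg, abs_one_or hs, abs_one_or hb, abs_one_or ha']
          norm_num
        · convert! hWd using 1
          simp only [smul_smul, zero_smul, add_zero, zero_add]
        · rw [hWx]
          have e : b * b' * (0 + s * (s * (b * tau (x 1 + 1)))) -
              b * s * tau (x 1) * (s * (b * -a')) - b' * s * tau (x 0) * 0
              = (s * s) * (b * b) * (b' * tau (x 1 + 1)) +
                (s * s) * (b * b) * (a' * tau (x 1)) := by ring
          rw [e, ss, bb]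
          linarith
      · -- the third is the smallest
        have hlt : |x 2| < (b * b') * smin (tau (x 0 + 1)) (tau (x 1 + 1)) := by
          rw [hMx]
          have : b * b' * (b * tau (x 1 + 1)) = b * b * (b' * tau (x 1 + 1)) := by ring
          rw [this, bb, one_mul, ← hz']
          exact h23
        have hWd := hasFDerivAt_smin_right hM.continuousAt (hasFDerivAt_pr 2 x)
          (mul_one_or hb hb') hlt
        have hWx : W x = b * b' * x 2 := by
          rw [W, smin_comm, smin_of_lt (mul_one_or hb hb') hlt]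
        refine ⟨0, 0, b * b', by simp, by simp, ?_, ?_, ?_⟩
        · rw [abs_mul, abs_one_or hb, abs_one_or hb']
          norm_num
        · convert! hWd using 1
          simp only [zero_smul, zero_add]
        · rw [hWx]
          have e : b * b' * (b * b' + s * (b * b' * x 2)) - b * s * tau (x 1) * 0 -
              b' * s * tau (x 0) * 0 = (b * b) * (b' * b') * (1 + s * x 2) := by ring
          rw [e, bb, bb']
          linarith
  obtain ⟨w0, w1, w2, hw0, hw1, hw2, dW, hdet⟩ := hW
  refine ⟨![![b, 0, s * tau (x 0)], ![0, b', s * tau (x 1)], ![w0, w1, w2 + s * W x]],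
    ?_, ?_, ?_⟩
  · have hs1 : |s| = 1 := abs_one_or hs
    have k1 : |s * tau (x 0)| ≤ 2 := by
      rw [abs_mul, hs1, one_mul]; linarith [tau_abs_le (x 0)]
    have k2 : |s * tau (x 1)| ≤ 2 := by
      rw [abs_mul, hs1, one_mul]; linarith [tau_abs_le (x 1)]
    have k3 : |w2 + s * W x| ≤ 2 := by
      refine (abs_add_le _ _).trans ?_
      rw [abs_mul, hs1, one_mul]
      linarith [W_abs_le x]
    have k4 : |b| ≤ 2 := by rw [abs_one_or hb]; norm_num
    have k5 : |b'| ≤ 2 := by rw [abs_one_or hb']; norm_num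
    intro i j
    fin_cases i <;> fin_cases j <;> simp [-abs_mul] <;> linarith
  · simp only [det3, Matrix.cons_val_zero, Matrix.cons_val_one, Matrix.cons_val]
    linarith
  · intro i
    fin_cases i
    · have := hlam.mul dτ
      convert! this using 1
      ext v
      simp [P]
      ring
    · have := hlam.mul dτ'
      convert! this using 1
      ext v
      simp [P]
      ring
    · have := hlam.mul dW
      convert! this using 1
      ext v
      simp [P]
      ring

end Pool.Agent.Lib_MP_53ae57_an
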