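import Mathlib

/-!
The zigzag (triangle) wave of period `4` and its local structure.
-/

set_option autoImplicit false

namespace Pool.Agent.Lib_MP_53ae57_an

open MeasureTheory Metric Set Filter Topology

/-- The triangle wave: `tau x = x` on `[-1,1]`, `tau x = 2 - x` on `[1,3]`, period `4`. -/
noncomputable def tau (x : ℝ) : ℝ := 1 - ‖((x - 1 : ℝ) : AddCircle (4 : ℝ))‖

lemma tau_eq {x : ℝ} (k : ℤ) (h : |x - 1 - 4 * k| ≤ 2) : tau x = 1 - |x - 1 - 4 * k| := by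
  have h1 : ((x - 1 : ℝ) : AddCircle (4 : ℝ)) = ((x - 1 - 4 * k : ℝ) : AddCircle (4 : ℝ)) := by
    rw [AddCircle.coe_sub (x := x - 1)]
    have : ((4 * k : ℝ) : AddCircle (4 : ℝ)) = 0 := by
      rw [AddCircle.coe_eq_zero_iff]
      exact ⟨k, by simp; ring⟩
    rw [this, sub_zero]
  have h2 : ‖((x - 1 - 4 * k : ℝ) : AddCircle (4 : ℝ))‖ = |x - 1 - 4 * k| := by
    refine (AddCircle.norm_coe_eq_abs_iff (4 : ℝ) (four_ne_zero)).2 ?_
    rw [abs_of_pos (by norm_num : (0 : ℝ) < 4)]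
    linarith
  rw [tau, h1, h2]

lemma tau_up {x : ℝ} (k : ℤ) (h1 : 4 * k - 1 ≤ x) (h2 : x ≤ 4 * k + 1) : tau x = x - 4 * k := by
  have h3 : |x - 1 - 4 * k| = -(x - 1 - 4 * k) := abs_of_nonpos (by linarith)
  rw [tau_eq k (by rw [h3]; linarith), h3]
  ring

lemma tau_down {x : ℝ} (k : ℤ) (h1 : 4 * k + 1 ≤ x) (h2 : x ≤ 4 * k + 3) :
    tau x = 4 * k + 2 - x := by
  have h3 : |x - 1 - 4 * k| = x - 1 - 4 * k := abs_of_nonneg (by linarith)
  rw [tau_eq k (by rw [h3]; linarith), h3]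
  ring

lemma tau_lipschitz : LipschitzWith 1 tau := by
  apply LipschitzWith.of_dist_le_mul
  intro x y
  rw [Real.dist_eq, Real.dist_eq, tau, tau]
  have h1 : (1 - ‖((x - 1 : ℝ) : AddCircle (4 : ℝ))‖) - (1 - ‖((y - 1 : ℝ) : AddCircle (4 : ℝ))‖)
      = ‖((y - 1 : ℝ) : AddCircle (4 : ℝ))‖ - ‖((x - 1 : ℝ) : AddCircle (4 : ℝ))‖ := by ring
  rw [h1]
  refine (abs_norm_sub_norm_le _ _).trans ?_
  rw [← AddCircle.coe_sub]
  have h2 : y - 1 - (x - 1) = y - x := by ring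
  rw [h2, NNReal.coe_one, one_mul, abs_sub_comm x y]
  exact QuotientAddGroup.norm_mk_le_norm

lemma tau_abs_le (x : ℝ) : |tau x| ≤ 1 := by
  have h1 : 0 ≤ ‖((x - 1 : ℝ) : AddCircle (4 : ℝ))‖ := norm_nonneg _
  have h2 : ‖((x - 1 : ℝ) : AddCircle (4 : ℝ))‖ ≤ |4| / 2 :=
    AddCircle.norm_le_half_period 4 (by norm_num)
  rw [abs_of_pos (by norm_num : (0 : ℝ) < 4)] at h2
  rw [tau, abs_le]
  constructor <;> linarith

lemma hasDerivAt_tau_up {x : ℝ} (k : ℤ) (h1 : 4 * k - 1 < x) (h2 : x < 4 * k + 1) :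
    HasDerivAt tau 1 x := by
  have h : tau =ᶠ[𝓝 x] fun y => y - 4 * k := by
    filter_upwards [isOpen_Ioo.mem_nhds (show x ∈ Ioo (4 * (k : ℝ) - 1) (4 * k + 1) from ⟨h1, h2⟩)]
      with y hy
    exact tau_up k hy.1.le hy.2.le
  exact ((hasDerivAt_id x).sub_const _).congr_of_eventuallyEq h

lemma hasDerivAt_tau_down {x : ℝ} (k : ℤ) (h1 : 4 * k + 1 < x) (h2 : x < 4 * k + 3) :
    HasDerivAt tau (-1) x := by
  have h : tau =ᶠ[𝓝 x] fun y => 4 * k + 2 - y := by
    filter_upwards [isOpen_Ioo.mem_nhds (show x ∈ Ioo (4 * (k : ℝ) + 1) (4 * k + 3) from ⟨h1, h2⟩)]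
      with y hy
    exact tau_down k hy.1.le hy.2.le
  exact ((hasDerivAt_id x).const_sub _).congr_of_eventuallyEq h

/-- Local structure of the pair (triangle sine, triangle cosine). -/
lemma tau_local {x : ℝ} (hx : ∀ l : ℤ, x ≠ l) :
    ∃ a b : ℝ, (a = 1 ∨ a = -1) ∧ (b = 1 ∨ b = -1) ∧ HasDerivAt tau b x ∧
      HasDerivAt tau (-a) (x + 1) ∧ 0 < a * tau x ∧ 0 < b * tau (x + 1) ∧
      a * tau x + b * tau (x + 1) = 1 ∧ ∃ l : ℤ, |tau (x + 1)| = |x - l| := by
  obtain ⟨k, r, hr0, hr4, hkr⟩ : ∃ k r : ℤ, 0 ≤ r ∧ r < 4 ∧ ⌊x⌋ = 4 * k + r :=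
    ⟨⌊x⌋ / 4, ⌊x⌋ % 4, Int.emod_nonneg _ (by norm_num), Int.emod_lt_of_pos _ (by norm_num),
      (Int.mul_ediv_add_emod _ _).symm⟩
  have h1 : ((4 * k + r : ℤ) : ℝ) < x := by
    rw [← hkr]
    exact lt_of_le_of_ne (Int.floor_le x) (Ne.symm (hx _))
  have h2 : x < ((4 * k + r : ℤ) : ℝ) + 1 := by
    rw [← hkr]
    exact Int.lt_floor_add_one x
  push_cast at h1 h2
  obtain rfl | rfl | rfl | rfl : r = 0 ∨ r = 1 ∨ r = 2 ∨ r = 3 := by omega
  · push_cast at h1 h2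
    have e1 : tau x = x - 4 * k := tau_up k (by linarith) (by linarith)
    have e2 : tau (x + 1) = 4 * k + 2 - (x + 1) := tau_down k (by linarith) (by linarith)
    refine ⟨1, 1, Or.inl rfl, Or.inl rfl, hasDerivAt_tau_up k (by linarith) (by linarith),
      hasDerivAt_tau_down k (by linarith) (by linarith), ?_, ?_, ?_, ⟨4 * k + 1, ?_⟩⟩
    · rw [e1]; linarith
    · rw [e2]; linarith
    · rw [e1, e2]; ring
    · rw [e2, abs_sub_comm]; push_cast; congr 1; ring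
  · push_cast at h1 h2
    have e1 : tau x = 4 * k + 2 - x := tau_down k (by linarith) (by linarith)
    have e2 : tau (x + 1) = 4 * k + 2 - (x + 1) := tau_down k (by linarith) (by linarith)
    refine ⟨1, -1, Or.inl rfl, Or.inr rfl, hasDerivAt_tau_down k (by linarith) (by linarith),
      hasDerivAt_tau_down k (by linarith) (by linarith), ?_, ?_, ?_, ⟨4 * k + 1, ?_⟩⟩
    · rw [e1]; linarith
    · rw [e2]; linarith
    · rw [e1, e2]; ring
    · rw [e2, abs_sub_comm]; push_cast; congr 1; ring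
  · push_cast at h1 h2
    have e1 : tau x = 4 * k + 2 - x := tau_down k (by linarith) (by linarith)
    have e2 : tau (x + 1) = (x + 1) - 4 * ((k + 1 : ℤ) : ℝ) :=
      tau_up (k + 1) (by push_cast; linarith) (by push_cast; linarith)
    refine ⟨-1, -1, Or.inr rfl, Or.inr rfl, hasDerivAt_tau_down k (by linarith) (by linarith),
      ?_, ?_, ?_, ?_, ⟨4 * k + 3, ?_⟩⟩
    · rw [neg_neg]
      exact hasDerivAt_tau_up (k + 1) (by push_cast; linarith) (by push_cast; linarith)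
    · rw [e1]; linarith
    · rw [e2]; push_cast; linarith
    · rw [e1, e2]; push_cast; ring
    · rw [e2]; push_cast; congr 1; ring
  · push_cast at h1 h2
    have e1 : tau x = x - 4 * ((k + 1 : ℤ) : ℝ) :=
      tau_up (k + 1) (by push_cast; linarith) (by push_cast; linarith)
    have e2 : tau (x + 1) = (x + 1) - 4 * ((k + 1 : ℤ) : ℝ) :=
      tau_up (k + 1) (by push_cast; linarith) (by push_cast; linarith)
    refine ⟨-1, 1, Or.inr rfl, Or.inl rfl,
      hasDerivAt_tau_up (k + 1) (by push_cast; linarith) (by push_cast; linarith),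
      ?_, ?_, ?_, ?_, ⟨4 * k + 3, ?_⟩⟩
    · rw [neg_neg]
      exact hasDerivAt_tau_up (k + 1) (by push_cast; linarith) (by push_cast; linarith)
    · rw [e1]; push_cast; linarith
    · rw [e2]; push_cast; linarith
    · rw [e1, e2]; push_cast; ring
    · rw [e2]; push_cast; congr 1; ring

/-- The signed minimum `sgn(ab) min(|a|,|b|)`. -/
noncomputable def smin (a b : ℝ) : ℝ := (|a + b| - |a - b|) / 2

lemma smin_of_lt {a b s : ℝ} (hs : s = 1 ∨ s = -1) (h : |a| < s * b) : smin a b = s * a := by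
  obtain ⟨h1, h2⟩ := abs_lt.1 h
  rcases hs with rfl | rfl
  · rw [smin, abs_of_pos (by linarith : 0 < a + b), abs_of_neg (by linarith : a - b < 0)]
    ring
  · rw [smin, abs_of_neg (by linarith : a + b < 0), abs_of_pos (by linarith : 0 < a - b)]
    ring

lemma smin_comm (a b : ℝ) : smin a b = smin b a := by
  rw [smin, smin, add_comm, abs_sub_comm]

lemma smin_abs_le_left (a b : ℝ) : |smin a b| ≤ |a| := by
  rw [smin, abs_div, abs_of_pos (by norm_num : (0:ℝ) < 2), div_le_iff₀ (by norm_num)]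
  have h := abs_abs_sub_abs_le (a + b) (b - a)
  have h2 : a + b - (b - a) = a * 2 := by ring
  rw [h2, abs_mul, abs_of_pos (by norm_num : (0:ℝ) < 2)] at h
  rw [abs_sub_comm a b]
  exact h

end Pool.Agent.Lib_MP_53ae57_an
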